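import Pool.Agent.H30.BV.Targets

/-!
Module LS of board bv_modules: the large sieve for primitive characters.
-/

set_option autoImplicit false

open Finset Real ArithmeticFunction
open scoped Nat

namespace Pool.Agent.H84.BV

open Pool.Agent.H30.BV
open Pool.Agent.H27.LS (hat trig muGT gam)

theorem ls (hGS : T_GS) : T_LS := by
  classical
  intro Q N a
  have hexp : ∀ n : ℕ, (∑ χ ∈ (univ : Finset (DirichletCharacter ℂ (n + 1))).filter
      (fun χ => χ.IsPrimitive), ‖∑ k ∈ range N, a k * cv χ k‖ ^ 2) ≤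
      ∑ b ∈ (range (n + 1)).filter (fun b => b.Coprime (n + 1)),
        ‖trig a N ((b : ℝ) / (n + 1 : ℕ))‖ ^ 2 := by
    intro n
    convert hGS n N a using 2
  rcases Nat.lt_or_ge Q 2 with hQ | hQ
  · have h0 : PC Q = ∅ := by
      have : Ico 1 Q = ∅ := by
        apply Finset.Ico_eq_empty
        omega
      simp only [PC, this]
      rfl
    rw [h0, Finset.sum_empty]
    positivity
  have hQ0 : (0 : ℝ) < Q := by
    have : 0 < Q := by omega
    exact_mod_cast this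
  have hmem : ∀ n b : ℕ, n ∈ Ico 1 Q → b ∈ (range (n + 1)).filter (fun b => b.Coprime (n + 1)) →
      1 ≤ b ∧ b + 1 ≤ n + 1 ∧ b.Coprime (n + 1) ∧ n + 1 ≤ Q ∧ 1 ≤ n := by
    intro n b hn hb
    rw [Finset.mem_Ico] at hn
    rw [Finset.mem_filter, Finset.mem_range] at hb
    refine ⟨?_, by omega, hb.2, by omega, hn.1⟩
    rcases Nat.eq_zero_or_pos b with h | h
    · exfalso
      have h1 := hb.2
      rw [h, Nat.coprime_zero_left] at h1
      omega
    · exact h
  calc ∑ x ∈ PC Q, ‖∑ k ∈ range N, a k * cv x.2 k‖ ^ 2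
      = ∑ n ∈ Ico 1 Q, ∑ χ ∈ (univ : Finset (DirichletCharacter ℂ (n + 1))).filter
          (fun χ => χ.IsPrimitive), ‖∑ k ∈ range N, a k * cv χ k‖ ^ 2 := by
        rw [PC, Finset.sum_sigma]
    _ ≤ ∑ n ∈ Ico 1 Q, ∑ b ∈ (range (n + 1)).filter (fun b => b.Coprime (n + 1)),
        ‖trig a N ((b : ℝ) / (n + 1 : ℕ))‖ ^ 2 := Finset.sum_le_sum fun n _ => hexp n
    _ = ∑ x ∈ (Ico 1 Q).sigma (fun n => (range (n + 1)).filter (fun b => b.Coprime (n + 1))),
        ‖trig a N ((x.2 : ℝ) / ((x.1 + 1 : ℕ) : ℝ))‖ ^ 2 := by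
        rw [Finset.sum_sigma]
    _ ≤ ((((Q : ℝ) ^ 2)⁻¹)⁻¹ + 4 * Real.pi * N) * ∑ k ∈ range N, ‖a k‖ ^ 2 := by
        refine Pool.Agent.H27.LS.additive_large_sieve a N (by positivity) _
          (fun x : (_ : ℕ) × ℕ => (x.2 : ℝ) / ((x.1 + 1 : ℕ) : ℝ)) ?_ ?_
        · rintro ⟨n, b⟩ h
          rw [Finset.mem_sigma] at h
          obtain ⟨hb1, hb2, -, hnQ, hn1⟩ := hmem n b h.1 h.2
          have hq : (2 : ℝ) ≤ ((n + 1 : ℕ) : ℝ) := by
            have : 2 ≤ n + 1 := by omega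
            exact_mod_cast this
          have hqK : ((n + 1 : ℕ) : ℝ) ≤ Q := by exact_mod_cast hnQ
          have hb : (1 : ℝ) ≤ b := by exact_mod_cast hb1
          have hb' : (b : ℝ) + 1 ≤ ((n + 1 : ℕ) : ℝ) := by exact_mod_cast hb2
          have h1 : ((Q : ℝ) ^ 2)⁻¹ / 2 ≤ 1 / ((n + 1 : ℕ) : ℝ) := by
            rw [div_eq_mul_inv, ← mul_inv, one_div]
            apply inv_anti₀ (by linarith)
            nlinarith
          constructor
          · refine h1.trans ?_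
            show 1 / ((n + 1 : ℕ) : ℝ) ≤ (b : ℝ) / ((n + 1 : ℕ) : ℝ)
            gcongr
          · have h2 : (b : ℝ) / ((n + 1 : ℕ) : ℝ) ≤ 1 - 1 / ((n + 1 : ℕ) : ℝ) := by
              rw [div_le_iff₀ (by linarith)]
              have : (1 - 1 / ((n + 1 : ℕ) : ℝ)) * ((n + 1 : ℕ) : ℝ) = ((n + 1 : ℕ) : ℝ) - 1 := by
                have h0 : ((n + 1 : ℕ) : ℝ) ≠ 0 := by linarith
                rw [sub_mul, one_mul, one_div, inv_mul_cancel₀ h0]
              rw [this]
              linarith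
            show (b : ℝ) / ((n + 1 : ℕ) : ℝ) ≤ 1 - ((Q : ℝ) ^ 2)⁻¹ / 2
            linarith
        · rintro ⟨n, b⟩ h ⟨n', b'⟩ h' hne
          rw [Finset.mem_sigma] at h h'
          obtain ⟨hb1, hb2, hc, hnQ, hn1⟩ := hmem n b h.1 h.2
          obtain ⟨hb1', hb2', hc', hnQ', hn1'⟩ := hmem n' b' h'.1 h'.2
          show ((Q : ℝ) ^ 2)⁻¹ ≤ |(b : ℝ) / ((n + 1 : ℕ) : ℝ) - b' / ((n' + 1 : ℕ) : ℝ)|
          have hq0 : (0 : ℝ) < ((n + 1 : ℕ) : ℝ) := by positivity
          have hq0' : (0 : ℝ) < ((n' + 1 : ℕ) : ℝ) := by positivity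
          have hqK : ((n + 1 : ℕ) : ℝ) ≤ Q := by exact_mod_cast hnQ
          have hqK' : ((n' + 1 : ℕ) : ℝ) ≤ Q := by exact_mod_cast hnQ'
          have h1 : (b : ℝ) / ((n + 1 : ℕ) : ℝ) - b' / ((n' + 1 : ℕ) : ℝ) =
              (((b : ℤ) * ((n' + 1 : ℕ) : ℤ) - (b' : ℤ) * ((n + 1 : ℕ) : ℤ) : ℤ) : ℝ) /
                (((n + 1 : ℕ) : ℝ) * ((n' + 1 : ℕ) : ℝ)) := by
            rw [div_sub_div _ _ hq0.ne' hq0'.ne']
            push_cast
            ring
          have h2 : ((b : ℤ) * ((n' + 1 : ℕ) : ℤ) - (b' : ℤ) * ((n + 1 : ℕ) : ℤ) : ℤ) ≠ 0 := by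
            intro h0
            have h3 : b * (n' + 1) = b' * (n + 1) := by
              have := sub_eq_zero.1 h0
              exact_mod_cast this
            have h4 : (n + 1) ∣ (n' + 1) := by
              have : (n + 1) ∣ b * (n' + 1) := ⟨b', by rw [h3]; ring⟩
              exact (Nat.Coprime.symm hc).dvd_of_dvd_mul_left this
            have h5 : (n' + 1) ∣ (n + 1) := by
              have : (n' + 1) ∣ b' * (n + 1) := ⟨b, by rw [← h3]; ring⟩
              exact (Nat.Coprime.symm hc').dvd_of_dvd_mul_left this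
            have h6 : n = n' := by
              have := Nat.dvd_antisymm h4 h5
              omega
            subst h6
            have h7 : b = b' := Nat.eq_of_mul_eq_mul_right (Nat.succ_pos n) h3
            subst h7
            exact hne rfl
          rw [h1, abs_div]
          have h3 : (1 : ℝ) ≤ |(((b : ℤ) * ((n' + 1 : ℕ) : ℤ) -
              (b' : ℤ) * ((n + 1 : ℕ) : ℤ) : ℤ) : ℝ)| := by
            rw [← Int.cast_abs]
            exact_mod_cast Int.one_le_abs h2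
          have h4 : |((n + 1 : ℕ) : ℝ) * ((n' + 1 : ℕ) : ℝ)| =
              ((n + 1 : ℕ) : ℝ) * ((n' + 1 : ℕ) : ℝ) := abs_of_pos (by positivity)
          rw [h4, inv_eq_one_div]
          have h5 : ((n + 1 : ℕ) : ℝ) * ((n' + 1 : ℕ) : ℝ) ≤ (Q : ℝ) ^ 2 := by
            rw [pow_two]
            gcongr
          gcongr
    _ = _ := by rw [inv_inv]

end Pool.Agent.H84.BV
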